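import Pool.Agent.Lib.MP_3e2ec7_co.Main

set_option autoImplicit false

namespace Pool.Agent.Results.MP_3e2ec7_co.Mixing

open Matrix Pool.Agent.Lib.MP_3e2ec7_co

theorem hasSum_U (a b : V) :
    HasSum (fun n : ℕ => (Complex.I * ((2 * Real.pi / 25 : ℝ) : ℂ)) ^ n / (n.factorial : ℂ) *
      (G.adjMatrix ℂ ^ n) a b) (U a b) := by
  have h : HasSum (fun n : ℕ => ((n.factorial : ℂ)⁻¹) •
      ((Complex.I * (tau : ℂ)) • G.adjMatrix ℂ) ^ n) U := by
    open scoped Norms.Operator in
    exact NormedSpace.exp_series_hasSum_exp' (𝕂 := ℂ) ((Complex.I * (tau : ℂ)) • G.adjMatrix ℂ)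
  have h2 := Pi.hasSum.1 (Pi.hasSum.1 h a) b
  refine h2.congr_fun ?_
  intro n
  simp only [smul_pow, Matrix.smul_apply, smul_eq_mul, tau]
  ring

theorem connected : G.Connected := by
  refine (SimpleGraph.connected_iff _).2 ⟨fun a b => ?_, ⟨0⟩⟩
  by_contra hab
  have h0 : ∀ n : ℕ, (G.adjMatrix ℂ ^ n) a b = 0 := by
    intro n
    rw [SimpleGraph.adjMatrix_pow_apply_eq_card_walk]
    have : IsEmpty {p : G.Walk a b | p.length = n} := ⟨fun p => hab ⟨p.1⟩⟩
    simp
  have h1 := hasSum_U a b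
  simp only [h0, mul_zero] at h1
  have h2 := norm_U a b
  rw [← hasSum_zero.unique h1] at h2
  norm_num at h2

theorem mu_zero : mu 0 ^ 25 = 1 := by
  have hz : Z 0 = 30 := by decide +kernel
  have ht : theta 0 = 122 := by
    have hb : beta (0 : V).1.1 = 2 := by
      show beta 0 = 2
      rw [beta, neg_zero, e_zero]
      norm_num
    rw [theta, hb, hz]
    norm_num
  rw [mu, ht, ← Complex.exp_nat_mul, Complex.exp_eq_one_iff]
  refine ⟨122, ?_⟩
  rw [tau]
  push_cast
  ring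

/-- A connected graph on 625 vertices with uniform mixing at time `2 π / 25`, such that the
transition matrix `U`, given by its power series, has an eigenvalue which is not a root of unity
(and another eigenvalue which is one, so that no scalar factor repairs this). -/
theorem result :
    ∃ (V : Type) (_ : Fintype V) (_ : DecidableEq V) (G : SimpleGraph V)
      (_ : DecidableRel G.Adj) (U : Matrix V V ℂ),
      Fintype.card V = 625 ∧ G.Connected ∧
      (∀ a b : V, HasSum (fun n : ℕ =>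
        (Complex.I * ((2 * Real.pi / 25 : ℝ) : ℂ)) ^ n / (n.factorial : ℂ) *
          (G.adjMatrix ℂ ^ n) a b) (U a b)) ∧
      (∀ a b : V, U a b * (starRingEnd ℂ) (U a b) = 1 / 625) ∧
      (∃ (μ : ℂ) (v : V → ℂ), v ≠ 0 ∧ U.mulVec v = μ • v ∧ ∀ k : ℕ, 1 ≤ k → μ ^ k ≠ 1) ∧
      (∃ (ν : ℂ) (w : V → ℂ), w ≠ 0 ∧ U.mulVec w = ν • w ∧ ν ^ 25 = 1) := by
  refine ⟨V, inferInstance, inferInstance, G, inferInstance, U, by simp, connected, hasSum_U,
    fun a b => ?_, ⟨_, _, col_ne ((1, 0), (0, 0)), eig ((1, 0), (0, 0)),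
      fun k hk => mu_not_root (0, 0) k hk⟩, ⟨_, _, col_ne 0, eig 0, mu_zero⟩⟩
  rw [Complex.mul_conj, Complex.normSq_eq_norm_sq, norm_U]
  push_cast
  norm_num

end Pool.Agent.Results.MP_3e2ec7_co.Mixing
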