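import Pool.Agent.Lib.MP_3e2ec7_co.RK.Main

namespace Pool.Agent.Results.MP_3e2ec7_co.UnboundedRank

open Pool.Agent.Lib.MP_3e2ec7_co

/-- For every prime `p ≥ 5` there is a connected graph on `p ^ 6` vertices with uniform mixing at
time `2 π / p ^ 2` whose transition matrix `U`, given by its power series, has `(p - 3) / 2`
multiplicatively independent eigenvalues. -/
theorem result (p : ℕ) (hp : p.Prime) (h5 : 5 ≤ p) :
    ∃ (V : Type) (_ : Fintype V) (_ : DecidableEq V) (G : SimpleGraph V)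
      (_ : DecidableRel G.Adj) (U : Matrix V V ℂ),
      Fintype.card V = p ^ 6 ∧ G.Connected ∧
      (∀ a b : V, HasSum (fun n : ℕ =>
        (Complex.I * ((2 * Real.pi / (p : ℝ) ^ 2 : ℝ) : ℂ)) ^ n / (n.factorial : ℂ) *
          (G.adjMatrix ℂ ^ n) a b) (U a b)) ∧
      (∀ a b : V, ‖U a b‖ = 1 / (p : ℝ) ^ 3) ∧
      ∃ μ : Fin ((p - 3) / 2) → ℂ,
        (∀ j, ∃ v : V → ℂ, v ≠ 0 ∧ U.mulVec v = μ j • v) ∧
        ∀ n : Fin ((p - 3) / 2) → ℤ, ∏ j, μ j ^ n j = 1 → ∀ j, n j = 0 := by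
  have : Fact p.Prime := ⟨hp⟩
  refine ⟨RK.V p, inferInstance, inferInstance, RK.G p, inferInstance, RK.U p, ?_,
    RK.connected h5, RK.hasSum_U, RK.norm_U h5, fun j => RK.mu (RK.vv j),
    fun j => ⟨_, RK.col_ne _, RK.eig h5 _⟩, fun n hn j => congrFun (RK.indep h5 n hn) j⟩
  simp [← pow_add]

end Pool.Agent.Results.MP_3e2ec7_co.UnboundedRank
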